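import Pool.Agent.Helper16.FP.Uni
import Pool.Agent.Helper87.FP.Thin
import Pool.Agent.Helper44.LB.Final

/-!
A basis with bounded mean square many of whose elements have many digits `0`.
-/

set_option autoImplicit false

namespace Pool.Agent.Helper16.FP

open Finset Filter
open Pool.Agent.Helper38.SP (quad)
open Pool.Agent.Helper80.TQ (zs zs_eq)

/-- `rep A n` is the number of ordered pairs of elements of `A` with sum `n`. -/
noncomputable def rep (A : Set ℕ) (n : ℕ) : ℕ :=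
  {p : ℕ × ℕ | p.1 ∈ A ∧ p.2 ∈ A ∧ p.1 + p.2 = n}.ncard

theorem rep_le_rr {A : Set ℕ} {U : Finset ℕ} {n : ℕ} (h : ∀ a ∈ A, a ≤ n → a ∈ U) :
    rep A n ≤ rr U U n := by
  classical
  unfold rep rr
  rw [← Set.ncard_coe_finset]
  refine Set.ncard_le_ncard ?_ (finite_toSet _)
  rintro p ⟨h1, h2, h3⟩
  rw [mem_coe, mem_filter, mem_product]
  exact ⟨⟨h _ h1 (by omega), h _ h2 (by omega)⟩, h3⟩

theorem rr_le_rep {A : Set ℕ} {U : Finset ℕ} (h : ∀ a ∈ U, a ∈ A) (n : ℕ) :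
    rr U U n ≤ rep A n := by
  classical
  unfold rep rr
  rw [← Set.ncard_coe_finset]
  refine Set.ncard_le_ncard ?_ ?_
  · intro p hp
    rw [mem_coe, mem_filter, mem_product] at hp
    exact ⟨h _ hp.1.1, h _ hp.1.2, hp.2⟩
  · refine (finite_toSet (range (n + 1) ×ˢ range (n + 1))).subset ?_
    rintro p ⟨_, _, h3⟩
    rw [mem_coe, mem_product, mem_range, mem_range]
    omega

theorem quad_translate (m : ℕ) (B : Finset ℕ) : #(quad (B.image fun b => m + b)) = #(quad B) := by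
  classical
  symm
  refine card_bij (fun q _ => ((m + q.1.1, m + q.1.2), (m + q.2.1, m + q.2.2))) ?_ ?_ ?_
  · intro q hq
    unfold quad at hq ⊢
    simp only [mem_filter, mem_product] at hq ⊢
    refine ⟨⟨⟨mem_image_of_mem _ hq.1.1.1, mem_image_of_mem _ hq.1.1.2⟩,
      ⟨mem_image_of_mem _ hq.1.2.1, mem_image_of_mem _ hq.1.2.2⟩⟩, ?_⟩
    have := hq.2
    omega
  · intro q _ q' _ h
    simp only [Prod.mk.injEq] at h
    exact Prod.ext (Prod.ext (by omega) (by omega)) (Prod.ext (by omega) (by omega))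
  · intro q hq
    unfold quad at hq
    simp only [mem_filter, mem_product, mem_image] at hq
    obtain ⟨⟨⟨⟨a, ha, ha'⟩, ⟨b, hb, hb'⟩⟩, ⟨⟨c, hc, hc'⟩, ⟨d, hd, hd'⟩⟩⟩, h⟩ := hq
    refine ⟨((a, b), (c, d)), ?_, ?_⟩
    · unfold quad
      simp only [mem_filter, mem_product]
      exact ⟨⟨⟨ha, hb⟩, hc, hd⟩, by omega⟩
    · exact Prod.ext (Prod.ext ha' hb') (Prod.ext hc' hd')

/-- the block of one scale -/
theorem exists_scale : ∀ k : ℕ, ∃ B ⊆ range (2 ^ k), (#(quad B) : ℝ) ≤ 576 * 2 ^ k ∧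
    (k < 160000 → B = {0}) ∧
    (160000 ≤ k → ∀ t : ℝ, 1 ≤ t → t ≤ 1 / 20 * (k : ℝ) ^ (1 / 4 : ℝ) →
      Real.exp (-(2048 * t ^ 4)) * √((2 : ℝ) ^ k) ≤
        4 * #{b ∈ B | (k : ℝ) / 2 + t * (k : ℝ) ^ (3 / 4 : ℝ) ≤ zs k b}) := by
  classical
  intro k
  rcases lt_or_ge k 160000 with hk | hk
  · refine ⟨{0}, by simp, ?_, fun _ => rfl, fun h => absurd h (by omega)⟩
    have h1 : #(quad ({0} : Finset ℕ)) ≤ 1 := by
      unfold quad
      refine (card_filter_le _ _).trans ?_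
      simp
    have h2 : (#(quad ({0} : Finset ℕ)) : ℝ) ≤ 1 := by exact_mod_cast h1
    have h3 : (1 : ℝ) ≤ 2 ^ k := one_le_pow₀ (by norm_num)
    linarith
  have hth := Pool.Agent.Helper87.FP.thin k (by omega)
  -- the pieces
  have hex : ∀ j : ℕ, ∃ B : Finset ℕ, (2 : ℝ) ^ j ≤ 1 / 10 * (k : ℝ) ^ (1 / 4 : ℝ) →
      B ⊆ range (2 ^ k) ∧
      (#(quad B) : ℝ) ≤ 36 * Real.exp (-256 * ((2 : ℝ) ^ j) ^ 4) * 2 ^ k ∧
      Real.exp (-128 * ((2 : ℝ) ^ j) ^ 4) * √((2 : ℝ) ^ k) ≤ 4 * #B ∧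
      ∀ b ∈ B, (k : ℝ) / 2 + (2 : ℝ) ^ j * (k : ℝ) ^ (3 / 4 : ℝ) ≤ zs k b := by
    intro j
    by_cases hj : (2 : ℝ) ^ j ≤ 1 / 10 * (k : ℝ) ^ (1 / 4 : ℝ)
    · obtain ⟨B, h1, h2, h3, h4⟩ := hth (2 ^ j) (one_le_pow₀ (by norm_num)) hj
      exact ⟨B, fun _ => ⟨h1, h2, h3, h4⟩⟩
    · exact ⟨∅, fun h => absurd h hj⟩
  choose X hX using hex
  obtain ⟨I, hI⟩ : ∃ I : Finset ℕ,
    I = (range k).filter fun j => (2 : ℝ) ^ j ≤ 1 / 10 * (k : ℝ) ^ (1 / 4 : ℝ) := ⟨_, rfl⟩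
  have hIX : ∀ j ∈ I, (2 : ℝ) ^ j ≤ 1 / 10 * (k : ℝ) ^ (1 / 4 : ℝ) := by
    intro j hj
    rw [hI, mem_filter] at hj
    exact hj.2
  obtain ⟨w, hw⟩ : ∃ w : ℝ, w = √(√((2 : ℝ) ^ k)) := ⟨_, rfl⟩
  have hw0 : 0 < w := by
    rw [hw]
    exact Real.sqrt_pos.2 (Real.sqrt_pos.2 (by positivity))
  have hw4 : w ^ 4 = 2 ^ k := by
    rw [hw, show (4 : ℕ) = 2 * 2 from rfl, pow_mul, Real.sq_sqrt (Real.sqrt_nonneg _),
      Real.sq_sqrt (by positivity)]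
  have hE : ∀ j ∈ I, (#(quad (X j)) : ℝ) ≤ 36 * ((1 / 2 : ℝ) ^ j * w) ^ 4 := by
    intro j hj
    refine (hX j (hIX j hj)).2.1.trans ?_
    rw [mul_pow, hw4, ← mul_assoc]
    refine mul_le_mul_of_nonneg_right ?_ (by positivity)
    refine mul_le_mul_of_nonneg_left ?_ (by norm_num)
    obtain ⟨y, hy⟩ : ∃ y : ℝ, y = (2 : ℝ) ^ j := ⟨_, rfl⟩
    have hy0 : 0 < y := by rw [hy]; positivity
    have e1 : (1 / 2 : ℝ) ^ j = y⁻¹ := by rw [hy, one_div, inv_pow]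
    rw [e1, ← hy, inv_pow, show -256 * y ^ 4 = -(256 * y ^ 4) by ring, Real.exp_neg]
    apply inv_anti₀ (by positivity)
    have h1 := Real.add_one_le_exp (256 * y ^ 4)
    have h2 : 0 < y ^ 4 := by positivity
    linarith
  refine ⟨I.biUnion X, biUnion_subset.2 fun j hj => (hX j (hIX j hj)).1, ?_,
    fun h => absurd h (by omega), fun _ t ht1 ht => ?_⟩
  · have h1 := quad_union_le I X (fun j => (1 / 2 : ℝ) ^ j * w) (fun j _ => by positivity) 36 hE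
      (2 ^ k) (fun j hj => (hX j (hIX j hj)).1)
    refine h1.trans ?_
    have h2 : ∑ j ∈ I, (1 / 2 : ℝ) ^ j * w ≤ 2 * w := by
      rw [← sum_mul]
      refine mul_le_mul_of_nonneg_right ?_ hw0.le
      calc ∑ j ∈ I, (1 / 2 : ℝ) ^ j ≤ ∑ j ∈ range k, (1 / 2 : ℝ) ^ j :=
            sum_le_sum_of_subset_of_nonneg (by rw [hI]; exact filter_subset _ _)
              fun _ _ _ => by positivity
        _ ≤ 2 := by
            have := geom_sum_eq (show (1 / 2 : ℝ) ≠ 1 by norm_num) k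
            rw [this]
            have h3 : (0 : ℝ) < (1 / 2 : ℝ) ^ k := by positivity
            rw [div_le_iff_of_neg (by norm_num)]
            linarith
    have h3 : 0 ≤ ∑ j ∈ I, (1 / 2 : ℝ) ^ j * w := sum_nonneg fun _ _ => by positivity
    have h4 := pow_le_pow_left₀ h3 h2 4
    rw [mul_pow, hw4] at h4
    linarith
  · obtain ⟨n, hn1, hn2⟩ := exists_nat_pow_near ht1 (show (1 : ℝ) < 2 by norm_num)
    have hj1 : (2 : ℝ) ^ (n + 1) ≤ 1 / 10 * (k : ℝ) ^ (1 / 4 : ℝ) := by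
      rw [pow_succ]
      linarith
    have hjI : n + 1 ∈ I := by
      rw [hI, mem_filter, mem_range]
      refine ⟨?_, hj1⟩
      have h1 : n + 1 < 2 ^ (n + 1) := Nat.lt_two_pow_self
      have h2 : ((2 ^ (n + 1) : ℕ) : ℝ) ≤ k := by
        push_cast
        refine hj1.trans ?_
        have hk1 : (1 : ℝ) ≤ k := by exact_mod_cast (by omega : 1 ≤ k)
        have h3 : (k : ℝ) ^ (1 / 4 : ℝ) ≤ (k : ℝ) ^ (1 : ℝ) :=
          Real.rpow_le_rpow_of_exponent_le hk1 (by norm_num)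
        rw [Real.rpow_one] at h3
        have h4 : 0 ≤ (k : ℝ) ^ (1 / 4 : ℝ) := by positivity
        linarith
      have h3 : 2 ^ (n + 1) ≤ k := by exact_mod_cast h2
      omega
    obtain ⟨-, -, h3, h4⟩ := hX (n + 1) hj1
    have h5 : #(X (n + 1)) ≤ #{b ∈ I.biUnion X | (k : ℝ) / 2 + t * (k : ℝ) ^ (3 / 4 : ℝ) ≤
        zs k b} := by
      refine card_le_card fun b hb => ?_
      rw [mem_filter, mem_biUnion]
      refine ⟨⟨n + 1, hjI, hb⟩, ?_⟩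
      refine le_trans ?_ (h4 b hb)
      have h6 : 0 ≤ (k : ℝ) ^ (3 / 4 : ℝ) := by positivity
      have := mul_le_mul_of_nonneg_right hn2.le h6
      linarith
    have h6 : (#(X (n + 1)) : ℝ) ≤ #{b ∈ I.biUnion X | (k : ℝ) / 2 +
        t * (k : ℝ) ^ (3 / 4 : ℝ) ≤ zs k b} := by exact_mod_cast h5
    have h7 : Real.exp (-(2048 * t ^ 4)) ≤ Real.exp (-128 * ((2 : ℝ) ^ (n + 1)) ^ 4) := by
      apply Real.exp_le_exp.2
      have h8 : (2 : ℝ) ^ (n + 1) ≤ 2 * t := by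
        rw [pow_succ]
        linarith
      have h9 := pow_le_pow_left₀ (by positivity) h8 4
      have h10 : (2 * t) ^ 4 = 16 * t ^ 4 := by ring
      rw [h10] at h9
      linarith
    have h8 := mul_le_mul_of_nonneg_right h7 (Real.sqrt_nonneg ((2 : ℝ) ^ k))
    linarith

end Pool.Agent.Helper16.FP
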