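import Pool.Agent.Helper16.FP.Bas
import Pool.Agent.Helper80.RC.Union

/-!
A basis with bounded mean square many of whose elements have many digits `0`: all scales.
-/

set_option autoImplicit false

namespace Pool.Agent.Helper16.FP

open Finset Filter
open Pool.Agent.Helper38.SP (quad)
open Pool.Agent.Helper80.TQ (zs zs_eq)
open Pool.Agent.Helper5.RC (uu uu_pos uu_four uu_step geo)
open Pool.Agent.Helper80.RC (chain_two)

/-- a basis with bounded mean square -/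
theorem exists_basis : ∃ (R : Set ℕ) (C : ℝ), 0 ≤ C ∧ (∀ n : ℕ, ∃ a ∈ R, ∃ b ∈ R, a + b = n) ∧
    ∀ x : ℕ, ∑ n ∈ range x, (rep R n : ℝ) ^ 2 ≤ C * x := by
  obtain ⟨R, h1, -, -, h4, -⟩ := Pool.Agent.Helper44.LB.basis
  obtain ⟨C, hC⟩ := h4 1
  have h5 : ∀ x : ℕ, ∑ n ∈ range x, (rep R n : ℝ) ^ 2 ≤ 2 * C * x := by
    intro x
    calc ∑ n ∈ range x, (rep R n : ℝ) ^ 2
        ≤ ∑ n ∈ range x, 2 * Real.exp (1 * Pool.Agent.Helper52.Thin.rp R n) := by
          refine sum_le_sum fun n _ => ?_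
          have e : Pool.Agent.Helper52.Thin.rp R n = rep R n := rfl
          rw [e, one_mul]
          have := Real.quadratic_le_exp_of_nonneg (Nat.cast_nonneg (α := ℝ) (rep R n))
          have h0 : (0 : ℝ) ≤ rep R n := Nat.cast_nonneg _
          linarith
      _ = 2 * ∑ n ∈ range x, Real.exp (1 * Pool.Agent.Helper52.Thin.rp R n) := by rw [mul_sum]
      _ ≤ 2 * (C * x) := mul_le_mul_of_nonneg_left (hC x) (by norm_num)
      _ = 2 * C * x := by ring
  refine ⟨R, 2 * C, ?_, h1, h5⟩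
  have h6 := h5 1
  have h7 : 0 ≤ ∑ n ∈ range 1, (rep R n : ℝ) ^ 2 := sum_nonneg fun _ _ => sq_nonneg _
  push_cast at h6
  linarith

/-- the set: a basis and the blocks -/
def SS (R : Set ℕ) (B : ℕ → Finset ℕ) : Set ℕ := {a | a ∈ R ∨ ∃ k, ∃ b ∈ B k, a = 2 ^ k + b}

theorem mean_square_SS {R : Set ℕ} {C : ℝ} (hC : 0 ≤ C)
    (hR : ∀ x : ℕ, ∑ n ∈ range x, (rep R n : ℝ) ^ 2 ≤ C * x) {B : ℕ → Finset ℕ}
    (hB : ∀ k, (#(quad (B k)) : ℝ) ≤ 576 * 2 ^ k) (x : ℕ) :
    ∑ n ∈ range x, (rep (SS R B) n : ℝ) ^ 2 ≤ 4096 * (576 + 2 * C) * x := by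
  classical
  rcases Nat.eq_zero_or_pos x with hx | hx
  · subst hx
    simp
  have hxr : (0 : ℝ) < x := by exact_mod_cast hx
  have hex : ∃ j, x ≤ 2 ^ j := ⟨x, Nat.lt_two_pow_self.le⟩
  obtain ⟨N, hN, hmin⟩ : ∃ N, x ≤ 2 ^ N ∧ ∀ j < N, 2 ^ j < x :=
    ⟨Nat.find hex, Nat.find_spec hex, fun j hj => not_le.1 (Nat.find_min hex hj)⟩
  obtain ⟨X, hX⟩ : ∃ X : Option ℕ → Finset ℕ, X = fun i => i.elim
      ((range x).filter fun a => a ∈ R) (fun k => (B k).image fun b => 2 ^ k + b) := ⟨_, rfl⟩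
  obtain ⟨u, hu⟩ : ∃ u : Option ℕ → ℝ, u = fun i => i.elim
      (√(√(x : ℝ))) (fun k => uu (fun j => 2 ^ j) k) := ⟨_, rfl⟩
  obtain ⟨w, hw⟩ : ∃ w : ℝ, w = √(√(x : ℝ)) := ⟨_, rfl⟩
  have hw0 : 0 < w := by
    rw [hw]
    exact Real.sqrt_pos.2 (Real.sqrt_pos.2 hxr)
  have hw4 : w ^ 4 = x := by
    rw [hw, show (4 : ℕ) = 2 * 2 from rfl, pow_mul, Real.sq_sqrt (Real.sqrt_nonneg _),
      Real.sq_sqrt hxr.le]
  obtain ⟨I, hI⟩ : ∃ I : Finset (Option ℕ), I = insertNone (range N) := ⟨_, rfl⟩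
  have hupos : ∀ i ∈ I, 0 < u i := by
    intro i _
    rw [hu]
    cases i with
    | none => rw [hw] at hw0; exact hw0
    | some k => exact uu_pos chain_two k
  have hE : ∀ i ∈ I, (#(quad (X i)) : ℝ) ≤ (576 + 2 * C) * u i ^ 4 := by
    intro i _
    rw [hu, hX]
    cases i with
    | none =>
      show (#(quad ((range x).filter fun a => a ∈ R)) : ℝ) ≤ (576 + 2 * C) * √(√(x : ℝ)) ^ 4
      rw [← hw, hw4, quad_eq_sum (N := x) (filter_subset _ _)]
      push_cast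
      have h1 : ∑ n ∈ range (2 * x), (rr ((range x).filter fun a => a ∈ R)
          ((range x).filter fun a => a ∈ R) n : ℝ) ^ 2 ≤
          ∑ n ∈ range (2 * x), (rep R n : ℝ) ^ 2 := by
        refine sum_le_sum fun n _ => pow_le_pow_left₀ (Nat.cast_nonneg _) ?_ 2
        exact_mod_cast rr_le_rep (fun a ha => (mem_filter.1 ha).2) n
      have h2 := hR (2 * x)
      push_cast at h2
      nlinarith
    | some k =>
      show (#(quad ((B k).image fun b => 2 ^ k + b)) : ℝ) ≤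
        (576 + 2 * C) * uu (fun j => 2 ^ j) k ^ 4
      rw [quad_translate, uu_four]
      push_cast
      have h1 := hB k
      have h2 : (0 : ℝ) < 2 ^ k := by positivity
      nlinarith
  have h1 := union_le I X u hupos (576 + 2 * C) hE x
  have h2 : ∀ n ∈ range x, (rep (SS R B) n : ℝ) ^ 2 ≤
      (rr (I.biUnion X) (I.biUnion X) n : ℝ) ^ 2 := by
    intro n hn
    rw [mem_range] at hn
    refine pow_le_pow_left₀ (Nat.cast_nonneg _) ?_ 2
    have h3 := rep_le_rr (A := SS R B) (U := I.biUnion X) (n := n) (by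
      intro a ha han
      rw [mem_biUnion]
      rcases ha with ha | ⟨k, b, hb, ha⟩
      · refine ⟨none, by rw [hI]; exact none_mem_insertNone, ?_⟩
        rw [hX]
        show a ∈ (range x).filter fun a => a ∈ R
        rw [mem_filter, mem_range]
        exact ⟨by omega, ha⟩
      · refine ⟨some k, ?_, ?_⟩
        · rw [hI, some_mem_insertNone, mem_range]
          by_contra hcon
          have : 2 ^ N ≤ 2 ^ k := Nat.pow_le_pow_right (by norm_num) (not_lt.1 hcon)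
          omega
        · rw [hX]
          show a ∈ (B k).image fun b => 2 ^ k + b
          rw [ha]
          exact mem_image_of_mem _ hb)
    exact_mod_cast h3
  refine (sum_le_sum h2).trans (h1.trans ?_)
  have h3 : ∑ i ∈ I, u i ≤ 8 * w := by
    rw [hI, sum_insertNone, hu]
    show √(√(x : ℝ)) + ∑ k ∈ range N, uu (fun j => 2 ^ j) k ≤ 8 * w
    rw [← hw]
    rcases Nat.eq_zero_or_pos N with h0 | h0
    · rw [h0, range_zero, sum_empty]
      linarith
    · obtain ⟨M, rfl⟩ : ∃ M, N = M + 1 := ⟨N - 1, by omega⟩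
      have h4 := geo (fun j => (uu_pos chain_two j).le) (uu_step chain_two) M
      have h5 : uu (fun j => 2 ^ j) M ≤ w := by
        rw [hw]
        unfold uu
        refine Real.sqrt_le_sqrt (Real.sqrt_le_sqrt ?_)
        have := hmin M (by omega)
        exact_mod_cast this.le
      rw [sum_range_succ]
      linarith
  have h4 : 0 ≤ ∑ i ∈ I, u i := sum_nonneg fun i hi => (hupos i hi).le
  have h5 := pow_le_pow_left₀ h4 h3 4
  rw [mul_pow, hw4] at h5
  have h6 := mul_le_mul_of_nonneg_left h5 (by linarith : (0 : ℝ) ≤ 576 + 2 * C)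
  refine h6.trans (le_of_eq ?_)
  ring

/-- the digits of `2 ^ k + b` -/
theorem zs_add {k b : ℕ} (hb : b < 2 ^ k) :
    {i | i < k ∧ (2 ^ k + b) / 2 ^ i % 2 ^ 1 = 0}.ncard = zs k b := by
  rw [zs_eq, ← Set.ncard_coe_finset]
  congr 1
  ext i
  rw [coe_filter, Set.mem_ofPred_eq, Set.mem_ofPred_eq, mem_range, pow_one]
  refine and_congr_right fun hi => ?_
  obtain ⟨j, rfl⟩ : ∃ j, k = i + (j + 1) := ⟨k - i - 1, by omega⟩
  rw [pow_add, Nat.mul_add_div (by positivity), pow_succ]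
  omega

theorem many_SS {R : Set ℕ} {B : ℕ → Finset ℕ} (hB : ∀ k, B k ⊆ range (2 ^ k)) (k : ℕ) (y : ℝ) :
    #{b ∈ B k | y ≤ zs k b} ≤ {a | a ∈ SS R B ∧ 2 ^ k ≤ a ∧ a < 2 ^ (k + 1) ∧
      y ≤ ({i | i < k ∧ a / 2 ^ i % 2 ^ 1 = 0}.ncard : ℝ)}.ncard := by
  classical
  rw [← card_image_of_injective {b ∈ B k | y ≤ zs k b} (add_right_injective (2 ^ k)),
    ← Set.ncard_coe_finset]
  refine Set.ncard_le_ncard ?_ ?_
  · intro a ha
    rw [mem_coe, mem_image] at ha
    obtain ⟨b, hb, rfl⟩ := ha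
    rw [mem_filter] at hb
    have h1 := mem_range.1 (hB k hb.1)
    refine ⟨Or.inr ⟨k, b, hb.1, rfl⟩, Nat.le_add_right _ _, ?_, ?_⟩
    · show 2 ^ k + b < _
      rw [pow_succ]
      omega
    · show y ≤ ({i | i < k ∧ (2 ^ k + b) / 2 ^ i % 2 ^ 1 = 0}.ncard : ℝ)
      rw [zs_add h1]
      exact hb.2
  · refine (finite_toSet (range (2 ^ (k + 1)))).subset ?_
    rintro a ⟨_, _, h, _⟩
    rw [mem_coe, mem_range]
    exact h

/-- SHARPNESS WITH A BASIS -/
theorem sharp_basis : ∃ (A : Set ℕ) (c C : ℝ), 0 < c ∧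
    (∀ n : ℕ, ∃ a ∈ A, ∃ a' ∈ A, a + a' = n) ∧
    (∀ x : ℕ, ∑ n ∈ range x, (rep A n : ℝ) ^ 2 ≤ C * x) ∧
    ∀ (K : ℕ) (δ : ℝ), 0 ≤ δ → δ ≤ c →
      c * ((2 : ℝ) ^ K) ^ (1 / 2 - C * δ ^ 4) ≤
        {a | a ∈ A ∧ 2 ^ K ≤ a ∧ a < 2 ^ (K + 1) ∧
          (1 / 2 + δ) * K ≤ ({i | i < K ∧ a / 2 ^ i % 2 ^ 1 = 0}.ncard : ℝ)}.ncard := by
  classical
  obtain ⟨R, C₀, hC₀, hR1, hR2⟩ := exists_basis
  choose B hB1 hB2 hB3 hB4 using exists_scale
  obtain ⟨c, hc⟩ : ∃ c : ℝ, c = Real.exp (-4096) * (4 * √((2 : ℝ) ^ 160000))⁻¹ / 20 := ⟨_, rfl⟩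
  have hc0 : 0 < c := by rw [hc]; positivity
  have hs1 : (1 : ℝ) ≤ √((2 : ℝ) ^ 160000) :=
    Real.one_le_sqrt.2 (one_le_pow₀ (by norm_num))
  have hc1 : c ≤ Real.exp (-4096) * (4 * √((2 : ℝ) ^ 160000))⁻¹ := by
    rw [hc]
    have : 0 ≤ Real.exp (-4096) * (4 * √((2 : ℝ) ^ 160000))⁻¹ := by positivity
    linarith
  have hexp1 : Real.exp (-4096) ≤ 1 := Real.exp_le_one_iff.2 (by norm_num)
  have hinv : (4 * √((2 : ℝ) ^ 160000))⁻¹ ≤ 1 / 4 := by
    rw [mul_inv]
    have : (√((2 : ℝ) ^ 160000))⁻¹ ≤ 1 := inv_le_one_of_one_le₀ hs1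
    linarith
  have hinv0 : 0 < (4 * √((2 : ℝ) ^ 160000))⁻¹ := by positivity
  have hc20 : c ≤ 1 / 20 := by
    rw [hc]
    have := mul_le_mul hexp1 hinv hinv0.le zero_le_one
    linarith
  refine ⟨SS R B, c, max (4096 * (576 + 2 * C₀)) 4096, hc0, ?_, ?_, ?_⟩
  · intro n
    obtain ⟨a, ha, b, hb, h⟩ := hR1 n
    exact ⟨a, Or.inl ha, b, Or.inl hb, h⟩
  · intro x
    refine (mean_square_SS hC₀ hR2 hB2 x).trans ?_
    exact mul_le_mul_of_nonneg_right (le_max_left _ _) (Nat.cast_nonneg _)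
  · intro K δ hδ0 hδc
    obtain ⟨C, hC⟩ : ∃ C : ℝ, C = max (4096 * (576 + 2 * C₀)) 4096 := ⟨_, rfl⟩
    rw [← hC]
    have hC4 : 4096 ≤ C := by rw [hC]; exact le_max_right _ _
    have hmany := many_SS (R := R) hB1 K ((1 / 2 + δ) * K)
    have hmany' : (#{b ∈ B K | (1 / 2 + δ) * K ≤ (zs K b : ℝ)} : ℝ) ≤
        ({a | a ∈ SS R B ∧ 2 ^ K ≤ a ∧ a < 2 ^ (K + 1) ∧
          (1 / 2 + δ) * K ≤ ({i | i < K ∧ a / 2 ^ i % 2 ^ 1 = 0}.ncard : ℝ)}.ncard : ℝ) := by
      exact_mod_cast hmany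
    refine le_trans ?_ hmany'
    have hδ4 : 0 ≤ C * δ ^ 4 := by positivity
    have h2K : (1 : ℝ) ≤ 2 ^ K := one_le_pow₀ (by norm_num)
    have hxs : ((2 : ℝ) ^ K) ^ (1 / 2 - C * δ ^ 4) ≤ √((2 : ℝ) ^ K) := by
      rw [Real.sqrt_eq_rpow]
      exact Real.rpow_le_rpow_of_exponent_le h2K (by linarith)
    rcases lt_or_ge K 160000 with hK | hK
    · -- small scales
      have hB0 := hB3 K hK
      have h1 : (0 : ℕ) ∈ {b ∈ B K | (1 / 2 + δ) * K ≤ (zs K b : ℝ)} := by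
        rw [mem_filter, hB0]
        refine ⟨mem_singleton_self 0, ?_⟩
        have h2 : zs K 0 = K := by
          rw [zs_eq]
          simp
        rw [h2]
        have h3 : (0 : ℝ) ≤ K := Nat.cast_nonneg K
        nlinarith
      have h2 : 1 ≤ #{b ∈ B K | (1 / 2 + δ) * K ≤ (zs K b : ℝ)} := card_pos.2 ⟨0, h1⟩
      have h3 : (1 : ℝ) ≤ #{b ∈ B K | (1 / 2 + δ) * K ≤ (zs K b : ℝ)} := by exact_mod_cast h2
      refine le_trans ?_ h3
      have h4 : √((2 : ℝ) ^ K) ≤ √((2 : ℝ) ^ 160000) :=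
        Real.sqrt_le_sqrt (pow_le_pow_right₀ (by norm_num) hK.le)
      have h5 : c * ((2 : ℝ) ^ K) ^ (1 / 2 - C * δ ^ 4) ≤
          (4 * √((2 : ℝ) ^ 160000))⁻¹ * √((2 : ℝ) ^ 160000) := by
        refine mul_le_mul ?_ (hxs.trans h4) (by positivity) hinv0.le
        refine hc1.trans ?_
        have := mul_le_mul_of_nonneg_right hexp1 hinv0.le
        linarith
      refine h5.trans ?_
      have h6 : (4 * √((2 : ℝ) ^ 160000))⁻¹ * √((2 : ℝ) ^ 160000) = 1 / 4 := by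
        have : √((2 : ℝ) ^ 160000) ≠ 0 := by positivity
        field_simp
      rw [h6]
      norm_num
    · -- large scales
      obtain ⟨q, hq⟩ : ∃ q : ℝ, q = (K : ℝ) ^ (1 / 4 : ℝ) := ⟨_, rfl⟩
      have hK0 : (0 : ℝ) ≤ K := Nat.cast_nonneg K
      have hK1 : (1 : ℝ) ≤ K := by exact_mod_cast (by omega : 1 ≤ K)
      have hq4 : q ^ 4 = K := by
        rw [hq, ← Real.rpow_natCast, ← Real.rpow_mul hK0]
        norm_num
      have hq3 : q ^ 3 = (K : ℝ) ^ (3 / 4 : ℝ) := by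
        rw [hq, ← Real.rpow_natCast, ← Real.rpow_mul hK0]
        norm_num
      have hq20 : 20 ≤ q := by
        have h1 : ((160000 : ℕ) : ℝ) ≤ K := by exact_mod_cast hK
        by_contra hcon
        have h0 : 0 ≤ q := by rw [hq]; positivity
        rw [not_le] at hcon
        have h2 := pow_lt_pow_left₀ hcon h0 (show (4 : ℕ) ≠ 0 by norm_num)
        rw [hq4] at h2
        push_cast at h1
        norm_num at h2
        linarith
      obtain ⟨t, ht⟩ : ∃ t : ℝ, t = max 1 (δ * q) := ⟨_, rfl⟩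
      have ht1 : 1 ≤ t := by rw [ht]; exact le_max_left _ _
      have hδt : δ * q ≤ t := by rw [ht]; exact le_max_right _ _
      have htq : t ≤ 1 / 20 * q := by
        rw [ht]
        refine max_le (by linarith) ?_
        refine mul_le_mul_of_nonneg_right (hδc.trans hc20) (by linarith)
      have h1 := hB4 K hK t ht1 (by rw [← hq]; exact htq)
      have h2 : #{b ∈ B K | (K : ℝ) / 2 + t * (K : ℝ) ^ (3 / 4 : ℝ) ≤ zs K b} ≤
          #{b ∈ B K | (1 / 2 + δ) * K ≤ (zs K b : ℝ)} := by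
        refine card_le_card fun b hb => ?_
        rw [mem_filter] at hb ⊢
        refine ⟨hb.1, le_trans ?_ hb.2⟩
        rw [← hq3, ← hq4]
        have h3 : 0 ≤ q ^ 3 := by rw [hq3]; positivity
        have := mul_le_mul_of_nonneg_right hδt h3
        nlinarith
      have h2' : (#{b ∈ B K | (K : ℝ) / 2 + t * (K : ℝ) ^ (3 / 4 : ℝ) ≤ zs K b} : ℝ) ≤
          #{b ∈ B K | (1 / 2 + δ) * K ≤ (zs K b : ℝ)} := by exact_mod_cast h2
      have h3 : t ^ 4 ≤ 1 + δ ^ 4 * K := by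
        rw [ht, ← hq4, ← mul_pow]
        rcases le_total 1 (δ * q) with h | h
        · rw [max_eq_right h]
          linarith
        · rw [max_eq_left h]
          have : 0 ≤ (δ * q) ^ 4 := by positivity
          linarith
      have h4 : c * ((2 : ℝ) ^ K) ^ (1 / 2 - C * δ ^ 4) ≤
          Real.exp (-(2048 * t ^ 4)) * √((2 : ℝ) ^ K) / 4 := by
        have e1 : ((2 : ℝ) ^ K) ^ (1 / 2 - C * δ ^ 4) =
            √((2 : ℝ) ^ K) * Real.exp (-(C * δ ^ 4 * (K * Real.log 2))) := by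
          rw [Real.rpow_sub (by positivity), ← Real.sqrt_eq_rpow, Real.rpow_def_of_pos (by positivity)
            (C * δ ^ 4), Real.log_pow, div_eq_mul_inv, ← Real.exp_neg]
          congr 2
          ring
        rw [e1]
        have h5 : Real.exp (-(C * δ ^ 4 * (K * Real.log 2))) ≤
            Real.exp 2048 * Real.exp (-(2048 * t ^ 4)) := by
          rw [← Real.exp_add]
          apply Real.exp_le_exp.2
          have hl : (1 / 2 : ℝ) ≤ Real.log 2 := by
            have := Real.log_two_gt_d9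
            linarith
          have h6 : 0 ≤ δ ^ 4 * K := by positivity
          have h7 : 2048 * (δ ^ 4 * K) ≤ C * δ ^ 4 * (K * Real.log 2) := by
            have h8 : 2048 ≤ C * Real.log 2 := by nlinarith
            have := mul_le_mul_of_nonneg_right h8 h6
            nlinarith
          nlinarith
        have h6 : c * Real.exp 2048 ≤ 1 / 4 := by
          have h7 : c ≤ Real.exp (-4096) * (1 / 4) := by
            refine hc1.trans ?_
            exact mul_le_mul_of_nonneg_left hinv (Real.exp_pos _).le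
          have h8 := mul_le_mul_of_nonneg_right h7 (Real.exp_pos 2048).le
          refine h8.trans ?_
          rw [mul_right_comm, ← Real.exp_add]
          have : Real.exp (-4096 + 2048) ≤ 1 := Real.exp_le_one_iff.2 (by norm_num)
          refine (mul_le_mul_of_nonneg_right this (by norm_num : (0 : ℝ) ≤ 1 / 4)).trans ?_
          norm_num
        have h7 : 0 ≤ √((2 : ℝ) ^ K) := Real.sqrt_nonneg _
        have h8 : 0 ≤ Real.exp (-(2048 * t ^ 4)) := (Real.exp_pos _).le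
        calc c * (√((2 : ℝ) ^ K) * Real.exp (-(C * δ ^ 4 * (K * Real.log 2))))
            ≤ c * (√((2 : ℝ) ^ K) * (Real.exp 2048 * Real.exp (-(2048 * t ^ 4)))) := by
              gcongr
          _ = c * Real.exp 2048 * (√((2 : ℝ) ^ K) * Real.exp (-(2048 * t ^ 4))) := by ring
          _ ≤ 1 / 4 * (√((2 : ℝ) ^ K) * Real.exp (-(2048 * t ^ 4))) :=
              mul_le_mul_of_nonneg_right h6 (by positivity)
          _ = _ := by ring
      refine h4.trans ?_
      linarith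

end Pool.Agent.Helper16.FP
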