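import Pool.Agent.Helper16.FP.Fin

/-!
# Digits that are not normal force a power in the representation function: the exact exponent
-/

set_option autoImplicit false

namespace Pool.Agent.Results.MP_12a1af_nt.DigitTails

open Filter

/-- `rep A n` is the number of ordered pairs of elements of `A` with sum `n`. -/
noncomputable def rep (A : Set ℕ) (n : ℕ) : ℕ :=
  {p : ℕ × ℕ | p.1 ∈ A ∧ p.2 ∈ A ∧ p.1 + p.2 = n}.ncard

/-- `blocks b l v K a` is the number of `i < K` such that the digits of `a` in base `b` at the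
places `i, i + 1, ..., i + l - 1` form the number `v`. -/
noncomputable def blocks (b l v K a : ℕ) : ℕ := {i | i < K ∧ a / b ^ i % b ^ l = v}.ncard

/-- `blocks2 b l u v K n a` is the number of `i < K` such that the digits at the places
`i, i + 1, ..., i + l - 1` form the number `u` for `n` and the number `v` for `a`. -/
noncomputable def blocks2 (b l u v K n a : ℕ) : ℕ :=
  {i | i < K ∧ n / b ^ i % b ^ l = u ∧ a / b ^ i % b ^ l = v}.ncard

/-- The number of places `i < K` at which the addition of `a` and `a'` in base `b` has a carry to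
the next place. -/
noncomputable def carries (b K a a' : ℕ) : ℕ :=
  {i | i < K ∧ b ^ (i + 1) ≤ a % b ^ (i + 1) + a' % b ^ (i + 1)}.ncard

/-- Every block of `l` digits in base `b` occurs in `a`, at the places below `K`, as often as
expected, up to `δ K`. -/
def Normal (b l : ℕ) (δ : ℝ) (K a : ℕ) : Prop :=
  ∀ v < b ^ l, |(blocks b l v K a : ℝ) - K / (b : ℝ) ^ l| < δ * K

/-- Every pair of blocks of `l` digits in base `b` occurs in `(n, a)`, at the same places below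
`K`, as often as expected, up to `δ K`. -/
def Joint (b l : ℕ) (δ : ℝ) (K n a : ℕ) : Prop :=
  ∀ u < b ^ l, ∀ v < b ^ l,
    |(blocks2 b l u v K n a : ℝ) - K / (b : ℝ) ^ (2 * l)| < δ * K

/-- (1) If many elements of `A`, or representations of many integers, are not `δ`-normal, then the
representation function is at least a power of `n` infinitely often. (2) The underlying inequality,
for all sets `A` and all scales. (3) The fourth power of `δ` is exact in both, even for a basis of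
order two with bounded mean square of the representation function. -/
theorem result :
    (∀ b l : ℕ, 2 ≤ b → ∃ c : ℝ, 0 < c ∧ ∀ δ : ℝ, 0 < δ → ∀ A : Set ℕ,
      (∃ᶠ K : ℕ in atTop,
        ((b : ℝ) ^ K) ^ (1 / 2 - c * δ ^ 4) ≤
          {a | a ∈ A ∧ a < b ^ K ∧ ¬ Normal b l δ K a}.ncard ∨
        ((b : ℝ) ^ K) ^ (1 - c * δ ^ 4) ≤
          {n | n < b ^ K ∧ ∃ a ∈ A, ∃ a' ∈ A, a + a' = n ∧
            (¬ Joint b l δ K n a ∨ δ * K ≤ |(carries b K a a' : ℝ) - K / 2|)}.ncard) →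
      ∃ᶠ n : ℕ in atTop, (n : ℝ) ^ (c * δ ^ 4) ≤ rep A n) ∧
    (∀ b l : ℕ, 2 ≤ b → ∃ c : ℝ, 0 < c ∧
      ∀ (A : Set ℕ) (K : ℕ) (δ : ℝ), 1 ≤ K → 0 ≤ δ →
        c * ({a | a ∈ A ∧ a < b ^ K ∧ ¬ Normal b l δ K a}.ncard : ℝ) ^ 4 *
            ((b : ℝ) ^ K) ^ (c * δ ^ 4 - 1) ≤
          ∑ n ∈ Finset.range (2 * b ^ K), (rep A n : ℝ) ^ 2 ∧
        c * ({p : ℕ × ℕ | p.1 ∈ A ∧ p.2 ∈ A ∧ p.1 < b ^ K ∧ p.2 < b ^ K ∧
              (¬ Joint b l δ K (p.1 + p.2) p.1 ∨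
                δ * K ≤ |(carries b K p.1 p.2 : ℝ) - K / 2|)}.ncard : ℝ) ^ 2 *
            ((b : ℝ) ^ K) ^ (c * δ ^ 4 - 1) ≤
          ∑ n ∈ Finset.range (2 * b ^ K), (rep A n : ℝ) ^ 2 ∧
        ∃ n < 2 * b ^ K,
          c * ({a | a ∈ A ∧ a < b ^ K ∧ ¬ Normal b l δ K a}.ncard : ℝ) ^ 2 *
              ((b : ℝ) ^ K) ^ (c * δ ^ 4 - 1) ≤ rep A n ∧
          c * ({p : ℕ × ℕ | p.1 ∈ A ∧ p.2 ∈ A ∧ p.1 < b ^ K ∧ p.2 < b ^ K ∧
                (¬ Joint b l δ K (p.1 + p.2) p.1 ∨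
                  δ * K ≤ |(carries b K p.1 p.2 : ℝ) - K / 2|)}.ncard : ℝ) *
              ((b : ℝ) ^ K) ^ (c * δ ^ 4 - 1) ≤ rep A n) ∧
    ∃ (A : Set ℕ) (c C : ℝ), 0 < c ∧
      (∀ n : ℕ, ∃ a ∈ A, ∃ a' ∈ A, a + a' = n) ∧
      (∀ x : ℕ, ∑ n ∈ Finset.range x, (rep A n : ℝ) ^ 2 ≤ C * x) ∧
      ∀ (K : ℕ) (δ : ℝ), 1 ≤ K → 0 ≤ δ → δ ≤ c →
        c * ((2 : ℝ) ^ K) ^ (1 / 2 - C * δ ^ 4) ≤
          {a | a ∈ A ∧ a < 2 ^ K ∧ ¬ Normal 2 1 δ K a}.ncard ∧
        c * ((2 : ℝ) ^ K) ^ (1 - C * δ ^ 4) ≤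
          {n | n < 2 ^ K ∧ ∃ a ∈ A, ∃ a' ∈ A, a + a' = n ∧
            (¬ Joint 2 1 δ K n a ∨ δ * K ≤ |(carries 2 K a a' : ℝ) - K / 2|)}.ncard :=
  ⟨fun b l hb => Pool.Agent.Helper16.FP.power_uniform b l hb,
    fun b l hb => Pool.Agent.Helper5.FP.Cand.main b l hb,
    Pool.Agent.Helper16.FP.exact⟩

end Pool.Agent.Results.MP_12a1af_nt.DigitTails
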