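import Pool.Agent.Helper16.FP.Pow2
import Pool.Agent.Helper16.FP.Bas2
import Pool.Agent.Helper87.FP.Dp
import Pool.Agent.Helper5.FP.Np

/-!
The fourth power is exact, even for bases.
-/

set_option autoImplicit false

namespace Pool.Agent.Helper16.FP

open Pool.Agent.Helper5.FP.Cand Filter

theorem exact : ∃ (A : Set ℕ) (c C : ℝ), 0 < c ∧
    (∀ n : ℕ, ∃ a ∈ A, ∃ a' ∈ A, a + a' = n) ∧
    (∀ x : ℕ, ∑ n ∈ Finset.range x, (rep A n : ℝ) ^ 2 ≤ C * x) ∧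
    ∀ (K : ℕ) (δ : ℝ), 1 ≤ K → 0 ≤ δ → δ ≤ c →
      c * ((2 : ℝ) ^ K) ^ (1 / 2 - C * δ ^ 4) ≤
        {a | a ∈ A ∧ a < 2 ^ K ∧ ¬ Normal 2 1 δ K a}.ncard ∧
      c * ((2 : ℝ) ^ K) ^ (1 - C * δ ^ 4) ≤
        {n | n < 2 ^ K ∧ ∃ a ∈ A, ∃ a' ∈ A, a + a' = n ∧
          (¬ Joint 2 1 δ K n a ∨ δ * K ≤ |(carries 2 K a a' : ℝ) - K / 2|)}.ncard := by
  obtain ⟨A, c₀, C₀, hc₀, hA, hms, h⟩ := sharp_basis
  have h0 : (0 : ℕ) ∈ A := by
    obtain ⟨a, ha, a', _, h1⟩ := hA 0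
    have : a = 0 := by omega
    rw [← this]
    exact ha
  obtain ⟨c₁, C₁, hc₁, h1⟩ := Pool.Agent.Helper87.FP.dpart h0 hc₀ h
  obtain ⟨c₂, C₂, hc₂, h2⟩ := Pool.Agent.Helper5.FP.Np.npart hc₀ hA hms h
  refine ⟨A, min c₁ c₂, max C₀ (max C₁ C₂), lt_min hc₁ hc₂, hA, fun x => (hms x).trans ?_,
    fun K δ hK hδ0 hδc => ?_⟩
  · exact mul_le_mul_of_nonneg_right (le_max_left _ _) (Nat.cast_nonneg _)
  have hx : (1 : ℝ) ≤ 2 ^ K := one_le_pow₀ (by norm_num)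
  have hd : 0 ≤ δ ^ 4 := by positivity
  constructor
  · refine le_trans ?_ (h1 K δ hK hδ0 (hδc.trans (min_le_left _ _)))
    refine mul_le_mul (min_le_left _ _) ?_ (by positivity) hc₁.le
    refine Real.rpow_le_rpow_of_exponent_le hx ?_
    have := mul_le_mul_of_nonneg_right
      ((le_max_left C₁ C₂).trans (le_max_right C₀ (max C₁ C₂))) hd
    linarith
  · refine le_trans ?_ (h2 K δ hK hδ0 (hδc.trans (min_le_right _ _)))
    refine mul_le_mul (min_le_right _ _) ?_ (by positivity) hc₂.le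
    refine Real.rpow_le_rpow_of_exponent_le hx ?_
    have := mul_le_mul_of_nonneg_right
      ((le_max_right C₁ C₂).trans (le_max_right C₀ (max C₁ C₂))) hd
    linarith

end Pool.Agent.Helper16.FP
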