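import Pool.Agent.Helper16.FP.Pow

/-!
Power growth of the representation function, uniform in the defect from normality.
-/

set_option autoImplicit false

namespace Pool.Agent.Helper16.FP

open Pool.Agent.Helper5.FP.Text Pool.Agent.Helper5.FP.Cand Filter

/-- many elements or many sums that are not normal force a power -/
theorem power_uniform (b l : ℕ) (hb : 2 ≤ b) : ∃ c₁ : ℝ, 0 < c₁ ∧ ∀ δ : ℝ, 0 < δ → ∀ A : Set ℕ,
    (∃ᶠ K : ℕ in atTop, ((b : ℝ) ^ K) ^ (1 / 2 - c₁ * δ ^ 4) ≤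
        {a | a ∈ A ∧ a < b ^ K ∧ ¬ Normal b l δ K a}.ncard ∨
      ((b : ℝ) ^ K) ^ (1 - c₁ * δ ^ 4) ≤
        {n | n < b ^ K ∧ ∃ a ∈ A, ∃ a' ∈ A, a + a' = n ∧ (¬ Joint b l δ K n a ∨
          δ * K ≤ |(carries b K a a' : ℝ) - K / 2|)}.ncard) →
    ∃ᶠ n : ℕ in atTop, (n : ℝ) ^ (c₁ * δ ^ 4) ≤ rep A n := by
  obtain ⟨c₀, hc₀, h⟩ := main b l hb
  refine ⟨c₀ / 4, by positivity, fun δ hδ => ?_⟩
  have hη : 0 < c₀ * δ ^ 4 := by positivity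
  obtain ⟨c, hc'⟩ : ∃ c : ℝ, c = c₀ / 4 * δ ^ 4 := ⟨_, rfl⟩
  have hc : c = c₀ * δ ^ 4 / 4 := by rw [hc']; ring
  have hcpos : 0 < c := by rw [hc]; positivity
  rw [← hc']
  refine fun A hA => grow hb hc₀ hcpos A ?_
  have hb' : (1 : ℝ) < b := by exact_mod_cast hb
  refine (hA.and_eventually (eventually_ge_atTop 1)).mono ?_
  rintro K ⟨hK, hK1⟩
  obtain ⟨-, -, n, hn, h4, h4'⟩ := h A K δ hK1 hδ.le
  refine ⟨n, hn, ?_⟩
  set x : ℝ := (b : ℝ) ^ K with hx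
  have hx0 : 0 < x := by positivity
  have hx1 : 1 ≤ x := one_le_pow₀ hb'.le
  rcases hK with hK | hK
  · set D : ℝ := ({a | a ∈ A ∧ a < b ^ K ∧ ¬ Normal b l δ K a}.ncard : ℝ) with hD
    refine le_trans ?_ h4
    have e1 : x ^ c * x ^ c = (x ^ (1 / 2 - c)) ^ 2 * x ^ (c₀ * δ ^ 4 - 1) := by
      rw [← Real.rpow_natCast (x ^ (1 / 2 - c)) 2, ← Real.rpow_mul hx0.le,
        ← Real.rpow_add hx0, ← Real.rpow_add hx0]
      congr 1
      rw [hc]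
      push_cast
      ring
    rw [e1, mul_assoc]
    gcongr
  · have hPf : {p : ℕ × ℕ | p.1 ∈ A ∧ p.2 ∈ A ∧ p.1 < b ^ K ∧ p.2 < b ^ K ∧
        (¬ Joint b l δ K (p.1 + p.2) p.1 ∨
          δ * K ≤ |(carries b K p.1 p.2 : ℝ) - K / 2|)}.Finite :=
      ((Set.finite_lt_nat (b ^ K)).prod (Set.finite_lt_nat (b ^ K))).subset
        fun a ha => ⟨ha.2.2.1, ha.2.2.2.1⟩
    have hNP : {n | n < b ^ K ∧ ∃ a ∈ A, ∃ a' ∈ A, a + a' = n ∧ (¬ Joint b l δ K n a ∨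
          δ * K ≤ |(carries b K a a' : ℝ) - K / 2|)}.ncard ≤
        {p : ℕ × ℕ | p.1 ∈ A ∧ p.2 ∈ A ∧ p.1 < b ^ K ∧ p.2 < b ^ K ∧
          (¬ Joint b l δ K (p.1 + p.2) p.1 ∨
            δ * K ≤ |(carries b K p.1 p.2 : ℝ) - K / 2|)}.ncard := by
      refine le_trans (Set.ncard_le_ncard ?_ (hPf.image fun p => p.1 + p.2))
        (Set.ncard_image_le hPf)
      rintro m ⟨hm, a, ha, a', ha', hs, hbad⟩
      refine ⟨(a, a'), ⟨ha, ha', ?_, ?_, ?_⟩, hs⟩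
      · show a < b ^ K
        omega
      · show a' < b ^ K
        omega
      · show ¬ Joint b l δ K (a + a') a ∨ _
        rw [hs]
        exact hbad
    refine le_trans ?_ h4'
    set P : ℝ := ({p : ℕ × ℕ | p.1 ∈ A ∧ p.2 ∈ A ∧ p.1 < b ^ K ∧ p.2 < b ^ K ∧
          (¬ Joint b l δ K (p.1 + p.2) p.1 ∨
            δ * K ≤ |(carries b K p.1 p.2 : ℝ) - K / 2|)}.ncard : ℝ) with hP
    have hxP : x ^ (1 - c) ≤ P := hK.trans ((Nat.cast_le (α := ℝ)).2 hNP)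
    have e1 : x ^ c * x ^ c ≤ x ^ (1 - c) * x ^ (c₀ * δ ^ 4 - 1) := by
      rw [← Real.rpow_add hx0, ← Real.rpow_add hx0]
      refine Real.rpow_le_rpow_of_exponent_le hx1 ?_
      rw [hc]
      linarith
    calc c₀ * (x ^ c * x ^ c) ≤ c₀ * (x ^ (1 - c) * x ^ (c₀ * δ ^ 4 - 1)) :=
          mul_le_mul_of_nonneg_left e1 hc₀.le
      _ ≤ c₀ * (P * x ^ (c₀ * δ ^ 4 - 1)) := by gcongr
      _ = _ := by ring

end Pool.Agent.Helper16.FP
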