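import Pool.Agent.Helper5.RC.Uni
import Pool.Agent.Helper38.SP.En

/-!
Mean squares of representation functions of unions of finite sets.
-/

set_option autoImplicit false

namespace Pool.Agent.Helper16.FP

open Finset
open Pool.Agent.Helper5.RC (sol blk mem_blk)
open Pool.Agent.Helper38.SP (quad)

/-- representations by a pair of finite sets -/
def rr (X Y : Finset ℕ) (n : ℕ) : ℕ := #{q ∈ X ×ˢ Y | q.1 + q.2 = n}

theorem blk_zero (B : Finset ℕ) : blk 0 B = B := by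
  unfold blk
  simp

theorem sol_zero_mod (B : Finset ℕ) : sol 0 B = quad B := by
  unfold sol quad
  refine filter_congr fun q _ => ?_
  rw [Nat.mod_zero, Nat.mod_zero]

theorem rr_sq_le (X Y : Finset ℕ) (t : ℝ) (ht : 0 < t) (x : ℕ) :
    ∑ n ∈ range x, (rr X Y n : ℝ) ^ 2 ≤ (t * #(quad X) + t⁻¹ * #(quad Y)) / 2 := by
  have h := Pool.Agent.Helper5.RC.sums_le 0 0 X Y 0 0 t ht x
  rw [blk_zero, blk_zero, sol_zero_mod, sol_zero_mod] at h
  exact h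

/-- Minkowski in `L ^ 4` -/
theorem union_le {ι : Type*} [DecidableEq ι] (I : Finset ι) (X : ι → Finset ℕ) (u : ι → ℝ)
    (hu : ∀ i ∈ I, 0 < u i) (D : ℝ) (hE : ∀ i ∈ I, (#(quad (X i)) : ℝ) ≤ D * u i ^ 4) (x : ℕ) :
    ∑ n ∈ range x, (rr (I.biUnion X) (I.biUnion X) n : ℝ) ^ 2 ≤ D * (∑ i ∈ I, u i) ^ 4 := by
  classical
  rcases I.eq_empty_or_nonempty with hI | hI
  · subst hI
    simp [rr]
  have h1 : ∀ n, (rr (I.biUnion X) (I.biUnion X) n : ℝ) ≤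
      ∑ p ∈ I ×ˢ I, (rr (X p.1) (X p.2) n : ℝ) := by
    intro n
    have h2 : ((I.biUnion X ×ˢ I.biUnion X).filter fun q => q.1 + q.2 = n) ⊆
        (I ×ˢ I).biUnion fun p => (X p.1 ×ˢ X p.2).filter fun q => q.1 + q.2 = n := by
      intro q hq
      rw [mem_filter, mem_product, mem_biUnion, mem_biUnion] at hq
      obtain ⟨⟨⟨i, hi, hi'⟩, ⟨j, hj, hj'⟩⟩, hq⟩ := hq
      rw [mem_biUnion]
      exact ⟨(i, j), mem_product.2 ⟨hi, hj⟩, mem_filter.2 ⟨mem_product.2 ⟨hi', hj'⟩, hq⟩⟩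
    have h3 := (card_le_card h2).trans card_biUnion_le
    unfold rr
    exact_mod_cast h3
  obtain ⟨w, hw⟩ : ∃ w : ι × ι → ℝ, w = fun p => u p.1 * u p.2 := ⟨_, rfl⟩
  have hw0 : ∀ p ∈ I ×ˢ I, 0 < w p := by
    intro p hp
    rw [mem_product] at hp
    rw [hw]
    exact mul_pos (hu _ hp.1) (hu _ hp.2)
  have hne : (I ×ˢ I).Nonempty := nonempty_product.2 ⟨hI, hI⟩
  have hW : 0 < ∑ p ∈ I ×ˢ I, w p := sum_pos hw0 hne
  have h2 : ∀ n ∈ range x, (rr (I.biUnion X) (I.biUnion X) n : ℝ) ^ 2 ≤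
      (∑ p ∈ I ×ˢ I, w p) * ∑ p ∈ I ×ˢ I, (rr (X p.1) (X p.2) n : ℝ) ^ 2 / w p := by
    intro n _
    have h3 := sq_sum_div_le_sum_sq_div (I ×ˢ I) (fun p => (rr (X p.1) (X p.2) n : ℝ))
      (g := w) hw0
    rw [div_le_iff₀ hW, mul_comm] at h3
    exact le_trans (pow_le_pow_left₀ (Nat.cast_nonneg _) (h1 n) 2) h3
  refine (sum_le_sum h2).trans ?_
  rw [← mul_sum, sum_comm]
  have h3 : ∀ p ∈ I ×ˢ I, ∑ n ∈ range x, (rr (X p.1) (X p.2) n : ℝ) ^ 2 / w p ≤ D * w p := by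
    intro p hp
    rw [← sum_div, div_le_iff₀ (hw0 p hp)]
    rw [mem_product] at hp
    have hi := hu _ hp.1
    have hj := hu _ hp.2
    have h4 := rr_sq_le (X p.1) (X p.2) (u p.2 ^ 2 / u p.1 ^ 2) (by positivity) x
    refine h4.trans ?_
    have e3 := mul_le_mul_of_nonneg_left (hE _ hp.1) (by positivity : 0 ≤ u p.2 ^ 2 / u p.1 ^ 2)
    have e4 := mul_le_mul_of_nonneg_left (hE _ hp.2)
      (by positivity : 0 ≤ (u p.2 ^ 2 / u p.1 ^ 2)⁻¹)
    have e5 : u p.2 ^ 2 / u p.1 ^ 2 * (D * u p.1 ^ 4) = D * (u p.1 ^ 2 * u p.2 ^ 2) := by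
      field_simp
    have e6 : (u p.2 ^ 2 / u p.1 ^ 2)⁻¹ * (D * u p.2 ^ 4) = D * (u p.1 ^ 2 * u p.2 ^ 2) := by
      field_simp
    rw [e5] at e3
    rw [e6] at e4
    have e7 : D * w p * w p = D * (u p.1 ^ 2 * u p.2 ^ 2) := by rw [hw]; ring
    rw [e7]
    linarith
  have h4 := sum_le_sum h3
  rw [← mul_sum] at h4
  have h5 := mul_le_mul_of_nonneg_left h4 hW.le
  refine h5.trans (le_of_eq ?_)
  have e : ∑ p ∈ I ×ˢ I, w p = (∑ i ∈ I, u i) ^ 2 := by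
    rw [hw, sum_product, sq, sum_mul_sum]
  rw [e]
  ring

/-- the number of quadruples as a sum of squares -/
theorem quad_eq_sum {S : Finset ℕ} {N : ℕ} (hS : S ⊆ range N) :
    #(quad S) = ∑ n ∈ range (2 * N), rr S S n ^ 2 := by
  classical
  rw [card_eq_sum_card_fiberwise (f := fun q => q.1.1 + q.1.2) (t := range (2 * N))]
  · refine sum_congr rfl fun n _ => ?_
    rw [sq, rr, ← card_product]
    congr 1
    ext q
    unfold quad
    simp only [mem_filter, mem_product]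
    constructor
    · rintro ⟨⟨⟨h1, h2⟩, h3⟩, h4⟩
      exact ⟨⟨h1, h4⟩, h2, by omega⟩
    · rintro ⟨⟨h1, h4⟩, h2, h3⟩
      exact ⟨⟨⟨h1, h2⟩, by omega⟩, h4⟩
  · intro q hq
    rw [mem_coe, quad, mem_filter, mem_product, mem_product] at hq
    have h1 := mem_range.1 (hS hq.1.1.1)
    have h2 := mem_range.1 (hS hq.1.1.2)
    rw [mem_coe, mem_range]
    show q.1.1 + q.1.2 < _
    omega

/-- the energy of a union -/
theorem quad_union_le {ι : Type*} [DecidableEq ι] (I : Finset ι) (X : ι → Finset ℕ) (u : ι → ℝ)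
    (hu : ∀ i ∈ I, 0 < u i) (D : ℝ) (hE : ∀ i ∈ I, (#(quad (X i)) : ℝ) ≤ D * u i ^ 4) (N : ℕ)
    (hX : ∀ i ∈ I, X i ⊆ range N) :
    (#(quad (I.biUnion X)) : ℝ) ≤ D * (∑ i ∈ I, u i) ^ 4 := by
  rw [quad_eq_sum (N := N) (biUnion_subset.2 hX)]
  push_cast
  exact union_le I X u hu D hE (2 * N)

end Pool.Agent.Helper16.FP
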